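import Pool.Agent.W912.KA.Graph

set_option autoImplicit false

/-! The asymptotic form. helper912. -/

namespace Pool.Agent.W912.KA

open Finset Filter Topology

theorem MI_two_le (n : ℕ) : 2 ≤ (MI n).ncard := by
  classical
  have h : ({fun _ => True, fun _ => False} : Set (SimpleGraph (Fin n) → Prop)) ⊆ MI n := by
    rintro P (rfl | rfl)
    · exact ⟨fun _ _ _ _ => trivial, fun _ _ _ => trivial⟩
    · exact ⟨fun _ _ _ h => h, fun _ _ h => h⟩
  have h2 : ({fun _ => True, fun _ => False} : Set (SimpleGraph (Fin n) → Prop)).ncard = 2 := by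
    apply Set.ncard_pair
    intro h
    have := congrFun h ⊥
    simp at this
  rw [← h2]
  exact Set.ncard_le_ncard h

/-- non-trivial properties -/
def NT (n : ℕ) (P : SimpleGraph (Fin n) → Prop) : Prop := (∃ G, P G) ∧ ∃ G, ¬ P G

theorem MI_nt (n : ℕ) (hn : 2 ≤ n) : (MI n).ncard ≤ 3 * {P | P ∈ MI n ∧ NT n P}.ncard := by
  classical
  have hsub : MI n ⊆ {P | P ∈ MI n ∧ NT n P} ∪ {fun _ => True, fun _ => False} := by
    intro P hP
    by_cases h : NT n P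
    · exact Or.inl ⟨hP, h⟩
    · right
      unfold NT at h
      by_cases h1 : ∃ G, P G
      · left
        funext G
        apply propext
        simp only [iff_true]
        by_contra hG
        exact h ⟨h1, G, hG⟩
      · right
        push Not at h1
        simp only [Set.mem_singleton_iff]
        funext G
        simp [h1 G]
  have h1 := (Set.ncard_le_ncard hsub).trans (Set.ncard_union_le _ _)
  have h2 : ({fun _ => True, fun _ => False} : Set (SimpleGraph (Fin n) → Prop)).ncard ≤ 2 :=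
    (Set.ncard_insert_le _ _).trans (by rw [Set.ncard_singleton])
  have h3 : 1 ≤ {P | P ∈ MI n ∧ NT n P}.ncard := by
    rw [Nat.one_le_iff_ne_zero, Ne, Set.ncard_eq_zero]
    intro hempty
    have : (fun G : SimpleGraph (Fin n) => ∃ a b, G.Adj a b) ∈ {P | P ∈ MI n ∧ NT n P} := by
      refine ⟨⟨fun G H h => ?_, fun σ G => ?_⟩, ⟨⊤, ⟨⟨0, by omega⟩, ⟨1, by omega⟩, by simp⟩⟩,
        ⊥, by simp⟩
      · rintro ⟨a, b, hab⟩
        exact ⟨a, b, h hab⟩
      · rintro ⟨a, b, hab⟩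
        exact ⟨σ a, σ b, SimpleGraph.map_adj_apply.2 hab⟩
    rw [hempty] at this
    exact this
  omega

theorem asym (ε : ℝ) (hε : 0 < ε) : ∃ n₀ : ℕ, ∀ n : ℕ, n₀ ≤ n →
    ({P | (P ∈ MI n ∧ NT n P) ∧ ¬ Ev n P}.ncard : ℝ) ≤
      (2 : ℝ) ^ (-(1 / 4 - ε) * (n : ℝ) ^ 2) * {P | P ∈ MI n ∧ NT n P}.ncard := by
  classical
  -- eventually 81 (N+1)^5 n! 2^(n/2) ≤ 2^(2 ε n²)
  have hlim : ∀ᶠ n : ℕ in atTop, (81 : ℝ) * (n : ℝ) ^ 10 * (n : ℝ) ^ n * 2 ^ n ≤
      (2 : ℝ) ^ (2 * ε * (n : ℝ) ^ 2) := by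
    have h1 : Tendsto (fun n : ℕ => Real.log n / n) atTop (𝓝 0) := by
      have := Real.isLittleO_log_id_atTop.tendsto_div_nhds_zero
      exact this.comp tendsto_natCast_atTop_atTop
    have h2 : Tendsto (fun n : ℕ => (1 : ℝ) / n) atTop (𝓝 0) := tendsto_one_div_atTop_nhds_zero_nat
    -- (log 81 + 10 log n + n log n + n log 2)/n^2 → 0
    have h3 : Tendsto (fun n : ℕ => Real.log 81 * ((1 : ℝ) / n) * (1 / n) +
        10 * (Real.log n / n) * (1 / n) + Real.log n / n + Real.log 2 * (1 / n)) atTop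
        (𝓝 (Real.log 81 * 0 * 0 + 10 * 0 * 0 + 0 + Real.log 2 * 0)) :=
      ((((h2.const_mul _).mul h2).add ((h1.const_mul _).mul h2)).add h1).add (h2.const_mul _)
    simp only [mul_zero, add_zero] at h3
    have h4 : (0 : ℝ) < 2 * ε * Real.log 2 := by
      have := Real.log_pos (by norm_num : (1 : ℝ) < 2)
      positivity
    filter_upwards [h3.eventually_lt_const h4, eventually_ge_atTop 1] with n hn hn1
    have hnpos : (0 : ℝ) < n := by exact_mod_cast hn1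
    have h5 : Real.log (81 * (n : ℝ) ^ 10 * (n : ℝ) ^ n * 2 ^ n) ≤
        Real.log ((2 : ℝ) ^ (2 * ε * (n : ℝ) ^ 2)) := by
      rw [Real.log_rpow (by norm_num), Real.log_mul (by positivity) (by positivity),
        Real.log_mul (by positivity) (by positivity), Real.log_mul (by positivity) (by positivity),
        Real.log_pow, Real.log_pow, Real.log_pow]
      have h6 : (Real.log 81 * ((1 : ℝ) / n) * (1 / n) +
        10 * (Real.log n / n) * (1 / n) + Real.log n / n + Real.log 2 * (1 / n)) * (n : ℝ) ^ 2 =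
        Real.log 81 + 10 * Real.log n + n * Real.log n + n * Real.log 2 := by
        field_simp
      have h7 := mul_le_mul_of_nonneg_right hn.le (by positivity : (0 : ℝ) ≤ (n : ℝ) ^ 2)
      rw [h6] at h7
      push_cast
      linarith
    exact (Real.log_le_log_iff (by positivity) (by positivity)).1 h5
  obtain ⟨n₁, hn₁⟩ := eventually_atTop.1 hlim
  refine ⟨max n₁ 2, fun n hn => ?_⟩
  have hn2 : 2 ≤ n := (le_max_right _ _).trans hn
  have hL := hn₁ n ((le_max_left _ _).trans hn)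
  have hsq := main_sq hn2
  have hnt := MI_nt n hn2
  set N := n.choose 2 with hN
  set A := {P | P ∈ MI n ∧ NT n P}.ncard with hA
  set B := {P | (P ∈ MI n ∧ NT n P) ∧ ¬ Ev n P}.ncard with hB
  have hBle : B ≤ {P | P ∈ MI n ∧ ¬ Ev n P}.ncard := by
    rw [hB]
    apply Set.ncard_le_ncard _ (Set.toFinite _)
    rintro P ⟨⟨h1, -⟩, h2⟩
    exact ⟨h1, h2⟩
  have h1 : B ^ 2 * 2 ^ N ≤ 81 * (N + 1) ^ 5 * n.factorial * A ^ 2 := by
    calc B ^ 2 * 2 ^ N ≤ {P | P ∈ MI n ∧ ¬ Ev n P}.ncard ^ 2 * 2 ^ N :=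
          Nat.mul_le_mul_right _ (Nat.pow_le_pow_left hBle 2)
      _ ≤ 9 * (N + 1) ^ 5 * n.factorial * (MI n).ncard ^ 2 := hsq
      _ ≤ 9 * (N + 1) ^ 5 * n.factorial * (3 * A) ^ 2 :=
          Nat.mul_le_mul_left _ (Nat.pow_le_pow_left hnt 2)
      _ = _ := by ring
  have hN2 : 2 * N = n * (n - 1) := by
    rw [hN, Nat.choose_two_right]
    exact Nat.mul_div_cancel' (Nat.even_mul_pred_self n).two_dvd
  have hN1 : N + 1 ≤ n ^ 2 := by
    have h3 : n * (n - 1) + n = n ^ 2 := by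
      obtain ⟨m, rfl⟩ : ∃ m, n = m + 1 := ⟨n - 1, by omega⟩
      simp only [Nat.add_sub_cancel]
      ring
    omega
  have h2 : ((B : ℝ)) ^ 2 * 2 ^ N ≤ 81 * (n : ℝ) ^ 10 * (n : ℝ) ^ n * (A : ℝ) ^ 2 := by
    have h3 : B ^ 2 * 2 ^ N ≤ 81 * n ^ 10 * n ^ n * A ^ 2 := by
      refine h1.trans ?_
      apply Nat.mul_le_mul_right
      apply Nat.mul_le_mul
      · apply Nat.mul_le_mul_left
        calc (N + 1) ^ 5 ≤ (n ^ 2) ^ 5 := Nat.pow_le_pow_left hN1 5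
          _ = n ^ 10 := by rw [← pow_mul]
      · exact Nat.factorial_le_pow n
    exact_mod_cast h3
  -- final comparison
  have h4 : (2 : ℝ) ^ ((n : ℝ) ^ 2 / 2) = 2 ^ N * (2 : ℝ) ^ ((n : ℝ) / 2) := by
    rw [← Real.rpow_natCast 2 N, ← Real.rpow_add (by norm_num)]
    congr 1
    have h5 : (2 * N : ℝ) = n * (n - 1) := by
      have h6 : ((2 * N : ℕ) : ℝ) = ((n * (n - 1) : ℕ) : ℝ) := by rw [hN2]
      push_cast [Nat.cast_sub (by omega : 1 ≤ n)] at h6
      exact h6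
    linarith
  have h5 : (2 : ℝ) ^ ((n : ℝ) / 2) ≤ 2 ^ n := by
    rw [← Real.rpow_natCast]
    apply Real.rpow_le_rpow_of_exponent_le (by norm_num)
    have : (0 : ℝ) ≤ n := by positivity
    linarith
  have h6 : (B : ℝ) ^ 2 * (2 : ℝ) ^ ((n : ℝ) ^ 2 / 2) ≤
      (2 : ℝ) ^ (2 * ε * (n : ℝ) ^ 2) * (A : ℝ) ^ 2 := by
    calc (B : ℝ) ^ 2 * (2 : ℝ) ^ ((n : ℝ) ^ 2 / 2)
        = ((B : ℝ) ^ 2 * 2 ^ N) * (2 : ℝ) ^ ((n : ℝ) / 2) := by rw [h4]; ring
      _ ≤ (81 * (n : ℝ) ^ 10 * (n : ℝ) ^ n * (A : ℝ) ^ 2) * 2 ^ n :=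
          mul_le_mul h2 h5 (by positivity) (by positivity)
      _ = (81 * (n : ℝ) ^ 10 * (n : ℝ) ^ n * 2 ^ n) * (A : ℝ) ^ 2 := by ring
      _ ≤ _ := mul_le_mul_of_nonneg_right hL (by positivity)
  apply le_of_sq_le_sq _ (by positivity)
  have h7 : ((2 : ℝ) ^ (-(1 / 4 - ε) * (n : ℝ) ^ 2)) ^ 2 =
      (2 : ℝ) ^ (2 * ε * (n : ℝ) ^ 2) * ((2 : ℝ) ^ ((n : ℝ) ^ 2 / 2))⁻¹ := by
    rw [← Real.rpow_natCast, ← Real.rpow_mul (by norm_num), ← Real.rpow_neg (by norm_num),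
      ← Real.rpow_add (by norm_num)]
    congr 1
    push_cast
    ring
  rw [mul_pow, h7]
  have h8 : (0 : ℝ) < (2 : ℝ) ^ ((n : ℝ) ^ 2 / 2) := by positivity
  rw [mul_assoc, mul_comm ((2 : ℝ) ^ ((n : ℝ) ^ 2 / 2))⁻¹, ← mul_assoc, ← div_eq_mul_inv,
    le_div_iff₀ h8]
  exact h6

end Pool.Agent.W912.KA
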