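import Mathlib

set_option autoImplicit false

/-! Counting up-closed sets of a ranked relation with vanishing weighted Euler characteristic.
helper912, for MP_257582_lc (almost all monotone graph properties are evasive). -/

namespace Pool.Agent.W912.KA

open Finset

/-- central binomial bound -/
theorem choose_sq (m : ℕ) : (m.choose (m / 2)) ^ 2 * m ≤ 4 ^ m := by
  have hc : ∀ n : ℕ, (Nat.centralBinom n) ^ 2 * (2 * n + 1) ≤ 16 ^ n := by
    intro n
    induction n with
    | zero => simp
    | succ n ih =>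
      have h := Nat.succ_mul_centralBinom_succ n
      -- (n+1) C(n+1) = 2 (2n+1) C(n)
      have h2 : ((n + 1) * Nat.centralBinom (n + 1)) ^ 2 * (2 * n + 3) * (2 * n + 1)
          ≤ (n + 1) ^ 2 * 16 ^ (n + 1) * (2 * n + 1) := by
        rw [h]
        have h3 : (2 * (2 * n + 1) * Nat.centralBinom n) ^ 2 * (2 * n + 3) * (2 * n + 1)
            = (Nat.centralBinom n ^ 2 * (2 * n + 1)) * (4 * (2 * n + 1) ^ 2 * (2 * n + 3)) := by
          ring
        rw [h3]
        calc (Nat.centralBinom n ^ 2 * (2 * n + 1)) * (4 * (2 * n + 1) ^ 2 * (2 * n + 3))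
            ≤ 16 ^ n * (4 * (2 * n + 1) ^ 2 * (2 * n + 3)) := Nat.mul_le_mul_right _ ih
          _ ≤ 16 ^ n * ((n + 1) ^ 2 * 16 * (2 * n + 1)) := by
              apply Nat.mul_le_mul_left
              nlinarith
          _ = _ := by ring
      have h4 : (n + 1) ^ 2 * (2 * n + 1) * (Nat.centralBinom (n + 1) ^ 2 * (2 * (n + 1) + 1))
          ≤ (n + 1) ^ 2 * (2 * n + 1) * 16 ^ (n + 1) := by
        calc _ = ((n + 1) * Nat.centralBinom (n + 1)) ^ 2 * (2 * n + 3) * (2 * n + 1) := by ring
          _ ≤ _ := h2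
          _ = _ := by ring
      exact Nat.le_of_mul_le_mul_left h4 (by positivity)
  rcases Nat.even_or_odd' m with ⟨n, rfl | rfl⟩
  · have := hc n
    rw [Nat.centralBinom_eq_two_mul_choose] at this
    have e : 2 * n / 2 = n := by omega
    rw [e]
    calc _ ≤ (Nat.choose (2 * n) n) ^ 2 * (2 * n + 1) := Nat.mul_le_mul_left _ (by omega)
      _ ≤ 16 ^ n := this
      _ = 4 ^ (2 * n) := by rw [pow_mul]; norm_num
  · have e : (2 * n + 1) / 2 = n := by omega
    rw [e]
    have h := hc (n + 1)
    have h5 : Nat.centralBinom (n + 1) = 2 * (2 * n + 1).choose n := by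
      have := Nat.choose_symm_half n
      rw [Nat.centralBinom_eq_two_mul_choose]
      have h6 : 2 * (n + 1) = (2 * n + 1) + 1 := by ring
      rw [h6, Nat.choose_succ_succ, ← this]
      ring
    rw [h5] at h
    have h7 : 4 * ((Nat.choose (2 * n + 1) n) ^ 2 * (2 * n + 1)) ≤ 4 * 4 ^ (2 * n + 1) := by
      calc _ ≤ (2 * Nat.choose (2 * n + 1) n) ^ 2 * (2 * (n + 1) + 1) := by
            have : (2 * Nat.choose (2 * n + 1) n) ^ 2 * (2 * (n + 1) + 1)
              = 4 * ((Nat.choose (2 * n + 1) n) ^ 2 * (2 * n + 3)) := by ring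
            rw [this]
            apply Nat.mul_le_mul_left
            apply Nat.mul_le_mul_left
            omega
        _ ≤ 16 ^ (n + 1) := h
        _ = 4 * 4 ^ (2 * n + 1) := by
            rw [show (16 : ℕ) = 4 ^ 2 by norm_num, ← pow_mul]
            ring
    exact Nat.le_of_mul_le_mul_left h7 (by norm_num)

/-- The number of subsets of a finite set whose weight is a given number, all weights positive. -/
theorem lo {Q : Type} [DecidableEq Q] (F : Finset Q) (w : Q → ℕ) (hw : ∀ x, 0 < w x) (t : ℤ) :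
    #{A ∈ F.powerset | (∑ x ∈ A, (w x : ℤ)) = t} ≤ (#F).choose (#F / 2) := by
  classical
  let 𝒜 : Finset (Finset F) := (F.powerset.filter (fun A => (∑ x ∈ A, (w x : ℤ)) = t)).image
    (fun A => A.subtype (· ∈ F))
  have hcard : #{A ∈ F.powerset | (∑ x ∈ A, (w x : ℤ)) = t} = #𝒜 := by
    symm
    apply Finset.card_image_of_injOn
    intro A hA B hB h
    simp only [Finset.coe_filter, Finset.mem_powerset, Set.mem_ofPred_eq] at hA hB
    have := congrArg (fun C => C.map (Function.Embedding.subtype (· ∈ F))) h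
    simp only [Finset.subtype_map] at this
    rwa [Finset.filter_true_of_mem (fun x hx => hA.1 hx),
      Finset.filter_true_of_mem (fun x hx => hB.1 hx)] at this
  rw [hcard]
  have hanti : IsAntichain (· ⊆ ·) (SetLike.coe 𝒜 : Set (Finset F)) := by
    intro A' hA' B' hB' hne hsub
    simp only [𝒜, SetLike.mem_coe, Finset.mem_image, Finset.mem_filter, Finset.mem_powerset]
      at hA' hB'
    obtain ⟨A, ⟨hAF, hA⟩, rfl⟩ := hA'
    obtain ⟨B, ⟨hBF, hB⟩, rfl⟩ := hB'
    have hAB : A ⊆ B := by
      intro x hx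
      have : (⟨x, hAF hx⟩ : F) ∈ A.subtype (· ∈ F) := by simpa using hx
      have := hsub this
      simpa using this
    have hss : A ⊂ B := by
      refine lt_of_le_of_ne hAB ?_
      rintro rfl
      exact hne rfl
    obtain ⟨x, hxB, hxA⟩ := Finset.exists_of_ssubset hss
    have h1 : (∑ x ∈ A, (w x : ℤ)) < ∑ x ∈ B, (w x : ℤ) := by
      apply Finset.sum_lt_sum_of_subset hAB hxB hxA
      · exact_mod_cast hw x
      · intro j _ _; positivity
    rw [hA, hB] at h1
    exact lt_irrefl _ h1
  have := hanti.sperner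
  simpa [Fintype.card_coe] using this

section abs
variable {Q : Type} [Fintype Q] [DecidableEq Q] (rk : Q → ℕ) (R : Q → Q → Prop) (w : Q → ℕ)

/-- closed sets -/
def Cl (U : Finset Q) : Prop := ∀ a b, R a b → a ∈ U → b ∈ U

open Classical in
/-- all closed sets -/
noncomputable def S : Finset (Finset Q) := univ.filter (fun U => Cl R U)

open Classical in
/-- free elements of rank `k` -/
noncomputable def Fr (k : ℕ) (U : Finset Q) : Finset Q :=
  univ.filter (fun x => rk x = k ∧ (∀ b, R b x → b ∉ U) ∧ (∀ b, R x b → b ∈ U))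

/-- weighted Euler characteristic -/
def mu (U : Finset Q) : ℤ := ∑ x ∈ U, (-1) ^ (rk x) * (w x : ℤ)

theorem mem_S (U : Finset Q) : U ∈ S R ↔ Cl R U := by simp [S]

theorem mem_Fr (k : ℕ) (U : Finset Q) (x : Q) :
    x ∈ Fr rk R k U ↔ rk x = k ∧ (∀ b, R b x → b ∉ U) ∧ (∀ b, R x b → b ∈ U) := by
  simp [Fr]

theorem Fr_congr (hR : ∀ a b, R a b → rk a < rk b) (k : ℕ) (U V : Finset Q)
    (h : ∀ x, rk x ≠ k → (x ∈ U ↔ x ∈ V)) : Fr rk R k U = Fr rk R k V := by
  ext x
  rw [mem_Fr, mem_Fr]
  constructor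
  · rintro ⟨h1, h2, h3⟩
    refine ⟨h1, fun b hb hbV => h2 b hb ((h b ?_).2 hbV), fun b hb => (h b ?_).1 (h3 b hb)⟩
    · have := hR b x hb; omega
    · have := hR x b hb; omega
  · rintro ⟨h1, h2, h3⟩
    refine ⟨h1, fun b hb hbV => h2 b hb ((h b ?_).1 hbV), fun b hb => (h b ?_).2 (h3 b hb)⟩
    · have := hR b x hb; omega
    · have := hR x b hb; omega

/-- changing a closed set on its free elements of rank `k` -/
theorem cl_change (hR : ∀ a b, R a b → rk a < rk b) (k : ℕ) (U : Finset Q) (hU : Cl R U)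
    (A : Finset Q) (hA : A ⊆ Fr rk R k U) : Cl R ((U \ Fr rk R k U) ∪ A) := by
  intro a b hab ha
  rw [Finset.mem_union, Finset.mem_sdiff] at ha ⊢
  rcases ha with ⟨ha, haF⟩ | ha
  · have hb : b ∈ U := hU a b hab ha
    left
    refine ⟨hb, fun hbF => ?_⟩
    rw [mem_Fr] at hbF
    exact hbF.2.1 a hab ha
  · have haF := hA ha
    rw [mem_Fr] at haF
    left
    refine ⟨haF.2.2 b hab, fun hbF => ?_⟩
    rw [mem_Fr] at hbF
    have := hR a b hab
    omega

/-- the part of a closed set which is not free of rank `k` -/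
noncomputable def core (k : ℕ) (U : Finset Q) : Finset Q := U \ Fr rk R k U

theorem Fr_core (hR : ∀ a b, R a b → rk a < rk b) (k : ℕ) (U : Finset Q) (A : Finset Q)
    (hA : A ⊆ Fr rk R k U) : Fr rk R k ((U \ Fr rk R k U) ∪ A) = Fr rk R k U := by
  apply Fr_congr rk R hR
  intro x hx
  have h1 : x ∉ Fr rk R k U := fun h => hx ((mem_Fr rk R k U x).1 h).1
  simp only [Finset.mem_union, Finset.mem_sdiff, h1, not_false_eq_true, and_true]
  exact ⟨fun h => h.elim id (fun h => absurd (hA h) h1), Or.inl⟩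

/-- fibre of the core map, all closed sets -/
theorem fib_card (hR : ∀ a b, R a b → rk a < rk b) (k : ℕ) (U : Finset Q) (hU : Cl R U) :
    2 ^ #(Fr rk R k U) ≤ #{V ∈ S R | core rk R k V = core rk R k U} := by
  classical
  rw [← Finset.card_powerset]
  apply Finset.card_le_card_of_injOn (fun A => (U \ Fr rk R k U) ∪ A)
  · intro A hA
    rw [Finset.mem_coe, Finset.mem_powerset] at hA
    simp only [Finset.coe_filter, Set.mem_ofPred_eq]
    refine ⟨(mem_S R _).2 (cl_change rk R hR k U hU A hA), ?_⟩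
    unfold core
    rw [Fr_core rk R hR k U A hA]
    ext x
    simp only [Finset.mem_sdiff, Finset.mem_union]
    constructor
    · rintro ⟨h1 | h1, h2⟩
      · exact h1
      · exact absurd (hA h1) h2
    · rintro ⟨h1, h2⟩
      exact ⟨Or.inl ⟨h1, h2⟩, h2⟩
  · intro A hA B hB h
    rw [Finset.mem_coe, Finset.mem_powerset] at hA hB
    simp only at h
    ext x
    have hx := Finset.ext_iff.1 h x
    simp only [Finset.mem_sdiff, Finset.mem_union] at hx
    constructor
    · intro hxA
      rcases hx.1 (Or.inr hxA) with h1 | h1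
      · exact absurd (hA hxA) h1.2
      · exact h1
    · intro hxB
      rcases hx.2 (Or.inr hxB) with h1 | h1
      · exact absurd (hB hxB) h1.2
      · exact h1

/-- fibre of the core map, vanishing Euler characteristic -/
theorem fib_bad (hR : ∀ a b, R a b → rk a < rk b) (hw : ∀ x, 0 < w x) (k : ℕ) (U : Finset Q) :
    #{V ∈ S R | mu rk w V = 0 ∧ core rk R k V = core rk R k U} ≤
      (#(Fr rk R k U)).choose (#(Fr rk R k U) / 2) := by
  classical
  refine le_trans ?_ (lo (Fr rk R k U) w hw (- (-1) ^ k * mu rk w (core rk R k U)))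
  have key : ∀ V : Finset Q, core rk R k V = core rk R k U → Fr rk R k V = Fr rk R k U := by
    intro V hV
    apply Fr_congr rk R hR
    intro x hx
    have h1 : x ∉ Fr rk R k U := fun h => hx ((mem_Fr rk R k U x).1 h).1
    have h2 : x ∉ Fr rk R k V := fun h => hx ((mem_Fr rk R k V x).1 h).1
    have := Finset.ext_iff.1 hV x
    simpa [core, h1, h2] using this
  apply Finset.card_le_card_of_injOn (fun V => V ∩ Fr rk R k U)
  · intro V hV
    simp only [Finset.coe_filter, Set.mem_ofPred_eq] at hV ⊢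
    obtain ⟨hVS, hmu, hcore⟩ := hV
    have hF := key V hcore
    refine ⟨by simp, ?_⟩
    have hsplit : mu rk w V = mu rk w (core rk R k U) +
        (-1) ^ k * ∑ x ∈ V ∩ Fr rk R k U, (w x : ℤ) := by
      rw [← hcore]
      have h1 : V = core rk R k V ∪ (V ∩ Fr rk R k U) := by
        unfold core
        rw [hF]
        exact (Finset.sdiff_union_inter V (Fr rk R k U)).symm
      have hd : Disjoint (core rk R k V) (V ∩ Fr rk R k U) := by
        unfold core
        rw [hF]
        exact Finset.disjoint_sdiff_inter V (Fr rk R k U)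
      have h2 : mu rk w V = mu rk w (core rk R k V) + mu rk w (V ∩ Fr rk R k U) := by
        conv_lhs => rw [h1]
        unfold mu
        rw [Finset.sum_union hd]
      rw [h2]
      congr 1
      unfold mu
      rw [Finset.mul_sum]
      apply Finset.sum_congr rfl
      intro x hx
      rw [((mem_Fr rk R k U x).1 (Finset.mem_inter.1 hx).2).1]
    rw [hmu] at hsplit
    have hs : ((-1 : ℤ) ^ k) * (-1) ^ k = 1 := by
      rw [← mul_pow]; simp
    have : (∑ x ∈ V ∩ Fr rk R k U, (w x : ℤ)) =
        ((-1 : ℤ) ^ k * (-1) ^ k) * ∑ x ∈ V ∩ Fr rk R k U, (w x : ℤ) := by rw [hs, one_mul]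
    rw [this]
    linear_combination (-(-1 : ℤ) ^ k) * hsplit
  · intro V hV W hW h
    simp only [Finset.coe_filter, Set.mem_ofPred_eq] at hV hW h
    have h1 : V = core rk R k V ∪ (V ∩ Fr rk R k U) := by
      unfold core
      rw [key V hV.2.2]
      exact (Finset.sdiff_union_inter V (Fr rk R k U)).symm
    have h2 : W = core rk R k W ∪ (W ∩ Fr rk R k U) := by
      unfold core
      rw [key W hW.2.2]
      exact (Finset.sdiff_union_inter W (Fr rk R k U)).symm
    rw [h1, h2, h, hV.2.2, hW.2.2]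

/-- closed sets with many free elements of rank `k` rarely have Euler characteristic zero -/
theorem manyfree (hR : ∀ a b, R a b → rk a < rk b) (hw : ∀ x, 0 < w x) (k F : ℕ) :
    (#{U ∈ S R | F < #(Fr rk R k U) ∧ mu rk w U = 0} : ℝ) * Real.sqrt (F + 1) ≤ #(S R) := by
  classical
  set B := (S R).filter (fun U => F < #(Fr rk R k U) ∧ mu rk w U = 0) with hB
  set C := (S R).image (core rk R k) with hC
  have h1 : #B = ∑ c ∈ C, #{V ∈ B | core rk R k V = c} := by
    apply Finset.card_eq_sum_card_fiberwise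
    intro V hV
    rw [Finset.mem_coe, hB, Finset.mem_filter] at hV
    exact Finset.mem_coe.2 (Finset.mem_image_of_mem _ hV.1)
  have h2 : #(S R) = ∑ c ∈ C, #{V ∈ S R | core rk R k V = c} := by
    apply Finset.card_eq_sum_card_fiberwise
    intro V hV
    exact Finset.mem_coe.2 (Finset.mem_image_of_mem _ hV)
  rw [h1, h2]
  push_cast
  rw [Finset.sum_mul]
  apply Finset.sum_le_sum
  intro c hc
  rw [hC, Finset.mem_image] at hc
  obtain ⟨U, hU, rfl⟩ := hc
  have hfs := fib_card rk R hR k U ((mem_S R U).1 hU)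
  have key : ∀ V : Finset Q, core rk R k V = core rk R k U → Fr rk R k V = Fr rk R k U := by
    intro V hV
    apply Fr_congr rk R hR
    intro x hx
    have h1 : x ∉ Fr rk R k U := fun h => hx ((mem_Fr rk R k U x).1 h).1
    have h2 : x ∉ Fr rk R k V := fun h => hx ((mem_Fr rk R k V x).1 h).1
    have := Finset.ext_iff.1 hV x
    simpa [core, h1, h2] using this
  by_cases hm : F < #(Fr rk R k U)
  · have hfb := fib_bad rk R w hR hw k U
    have hsub : #{V ∈ B | core rk R k V = core rk R k U} ≤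
        (#(Fr rk R k U)).choose (#(Fr rk R k U) / 2) := by
      refine le_trans (Finset.card_le_card ?_) hfb
      intro V hV
      rw [Finset.mem_filter, hB, Finset.mem_filter] at hV
      rw [Finset.mem_filter]
      exact ⟨hV.1.1, hV.1.2.2, hV.2⟩
    set m := #(Fr rk R k U) with hmdef
    have hsq := choose_sq m
    have hchoose : ((m.choose (m / 2) : ℕ) : ℝ) * Real.sqrt (F + 1) ≤ 2 ^ m := by
      have h3 : Real.sqrt ((F : ℝ) + 1) ≤ Real.sqrt m := by
        apply Real.sqrt_le_sqrt
        exact_mod_cast hm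
      have h4 : ((m.choose (m / 2) : ℕ) : ℝ) * Real.sqrt m ≤ 2 ^ m := by
        apply le_of_sq_le_sq _ (by positivity)
        rw [mul_pow, Real.sq_sqrt (by positivity), ← pow_mul, mul_comm m 2, pow_mul]
        norm_num
        exact_mod_cast hsq
      exact (mul_le_mul_of_nonneg_left h3 (by positivity)).trans h4
    calc ((#{V ∈ B | core rk R k V = core rk R k U} : ℕ) : ℝ) * Real.sqrt (F + 1)
        ≤ ((m.choose (m / 2) : ℕ) : ℝ) * Real.sqrt (F + 1) := by
          apply mul_le_mul_of_nonneg_right _ (Real.sqrt_nonneg _)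
          exact_mod_cast hsub
      _ ≤ 2 ^ m := hchoose
      _ ≤ _ := by exact_mod_cast hfs
  · have h0 : {V ∈ B | core rk R k V = core rk R k U} = ∅ := by
      apply Finset.filter_eq_empty_iff.2
      intro V hV hcV
      rw [hB, Finset.mem_filter] at hV
      rw [key V hcV] at hV
      exact hm hV.2.1
    rw [h0]
    simp

/-- number of small sets -/
theorem small_sets (L : ℕ) : #{A : Finset Q | #A ≤ L} ≤ (Fintype.card Q + 1) ^ L := by
  classical
  have h : (univ.filter (fun A : Finset Q => #A ≤ L)) ⊆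
      (univ : Finset (Fin L → Option Q)).image
        (fun g => univ.filter (fun x => ∃ i, g i = some x)) := by
    intro A hA
    rw [Finset.mem_filter] at hA
    rw [Finset.mem_image]
    let e := A.equivFin
    refine ⟨fun i => if h : (i : ℕ) < #A then some ((e.symm ⟨i, h⟩ : A) : Q) else none,
      Finset.mem_univ _, ?_⟩
    ext x
    rw [Finset.mem_filter]
    constructor
    · rintro ⟨-, i, hi⟩
      beta_reduce at hi
      by_cases h : (i : ℕ) < #A
      · rw [dif_pos h, Option.some.injEq] at hi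
        rw [← hi]
        exact (e.symm ⟨i, h⟩).2
      · rw [dif_neg h] at hi
        exact absurd hi (by simp)
    · intro hx
      refine ⟨Finset.mem_univ _, ⟨(e ⟨x, hx⟩ : ℕ), lt_of_lt_of_le (e ⟨x, hx⟩).2 hA.2⟩, ?_⟩
      beta_reduce
      rw [dif_pos (e ⟨x, hx⟩).2]
      simp
  refine (Finset.card_le_card h).trans (Finset.card_image_le.trans ?_)
  rw [Finset.card_univ, Fintype.card_fun, Fintype.card_option, Fintype.card_fin]

/-- closed sets with few free elements are few -/
theorem fewfree (hR : ∀ a b, R a b → rk a < rk b) (N : ℕ) (hN : ∀ x, rk x ≤ N) (F : ℕ) :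
    #{U ∈ S R | ∀ k ≤ N, #(Fr rk R k U) ≤ F} ≤ (Fintype.card Q + 1) ^ ((N + 1) * F) := by
  classical
  refine le_trans ?_ (small_sets ((N + 1) * F))
  let mn : Finset Q → Finset Q := fun U => U.filter (fun x => ∀ b, R b x → b ∉ U)
  have hmn : ∀ U x, x ∈ mn U ↔ x ∈ U ∧ ∀ b, R b x → b ∉ U := by
    intro U x
    simp [mn]
  have hsub : ∀ U V, Cl R U → Cl R V → mn U = mn V → U ⊆ V := by
    intro U V hU hV hUV
    have : ∀ j, ∀ x ∈ U, rk x ≤ j → x ∈ V := by
      intro j
      induction j with
      | zero =>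
        intro x hx hx0
        have : x ∈ mn U := (hmn U x).2 ⟨hx, fun b hb _ => by have := hR b x hb; omega⟩
        rw [hUV] at this
        exact ((hmn V x).1 this).1
      | succ j ih =>
        intro x hx hxj
        by_cases h : x ∈ mn U
        · rw [hUV] at h
          exact ((hmn V x).1 h).1
        · rw [hmn] at h
          push Not at h
          obtain ⟨b, hb, hbU⟩ := h hx
          have hbx := hR b x hb
          exact hV b x hb (ih b hbU (by omega))
    intro x hx
    exact this (rk x) x hx le_rfl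
  apply Finset.card_le_card_of_injOn mn
  · intro U hU
    rw [Finset.mem_coe, Finset.mem_filter] at hU
    rw [Finset.mem_coe, Finset.mem_filter]
    refine ⟨Finset.mem_univ _, ?_⟩
    have h1 : mn U ⊆ (Finset.range (N + 1)).biUnion (fun k => Fr rk R k U) := by
      intro x hx
      rw [hmn] at hx
      rw [Finset.mem_biUnion]
      refine ⟨rk x, Finset.mem_range.2 (Nat.lt_succ_of_le (hN x)), ?_⟩
      rw [mem_Fr]
      exact ⟨rfl, hx.2, fun b hb => (mem_S R U).1 hU.1 x b hb hx.1⟩
    refine (Finset.card_le_card h1).trans (Finset.card_biUnion_le.trans ?_)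
    calc ∑ k ∈ Finset.range (N + 1), #(Fr rk R k U) ≤ ∑ _k ∈ Finset.range (N + 1), F := by
          apply Finset.sum_le_sum
          intro k hk
          exact hU.2 k (Nat.lt_succ_iff.1 (Finset.mem_range.1 hk))
      _ = (N + 1) * F := by rw [Finset.sum_const, Finset.card_range, smul_eq_mul]
  · intro U hU V hV h
    rw [Finset.mem_coe, Finset.mem_filter] at hU hV
    have hU' := (mem_S R U).1 hU.1
    have hV' := (mem_S R V).1 hV.1
    exact Finset.Subset.antisymm (hsub U V hU' hV' h) (hsub V U hV' hU' h.symm)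

/-- there are many closed sets -/
theorem card_S_ge (hR : ∀ a b, R a b → rk a < rk b) (k : ℕ) (M : ℕ)
    (hM : M ≤ #{x : Q | rk x = k}) : 2 ^ M ≤ #(S R) := by
  classical
  refine (Nat.pow_le_pow_right (by norm_num) hM).trans ?_
  rw [← Finset.card_powerset]
  apply Finset.card_le_card_of_injOn (fun A => univ.filter (fun x => k < rk x) ∪ A)
  · intro A hA
    rw [Finset.mem_coe, Finset.mem_powerset] at hA
    rw [Finset.mem_coe, mem_S]
    intro a b hab ha
    have hlt := hR a b hab
    rw [Finset.mem_union, Finset.mem_filter] at ha ⊢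
    left
    refine ⟨Finset.mem_univ _, ?_⟩
    rcases ha with ha | ha
    · omega
    · have := (Finset.mem_filter.1 (hA ha)).2
      omega
  · intro A hA B hB h
    rw [Finset.mem_coe, Finset.mem_powerset] at hA hB
    simp only at h
    ext x
    have hx := Finset.ext_iff.1 h x
    simp only [Finset.mem_union, Finset.mem_filter, Finset.mem_univ, true_and] at hx
    constructor
    · intro hxA
      rcases hx.1 (Or.inr hxA) with h1 | h1
      · have := (Finset.mem_filter.1 (hA hxA)).2; omega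
      · exact h1
    · intro hxB
      rcases hx.2 (Or.inr hxB) with h1 | h1
      · have := (Finset.mem_filter.1 (hB hxB)).2; omega
      · exact h1

/-- **Main counting theorem.** -/
theorem count (hR : ∀ a b, R a b → rk a < rk b) (hw : ∀ x, 0 < w x) (N : ℕ)
    (hN : ∀ x, rk x ≤ N) (hQ : Fintype.card Q + 1 ≤ 2 ^ (N + 1)) (k M : ℕ) (hM0 : 0 < M)
    (hM : M ≤ #{x : Q | rk x = k}) :
    (#{U ∈ S R | mu rk w U = 0} : ℝ) * Real.sqrt M ≤ 3 * (N + 1) ^ 2 * #(S R) := by
  classical
  set F := M / (2 * (N + 1) ^ 2) with hF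
  have hS : (2 : ℝ) ^ M ≤ #(S R) := by exact_mod_cast card_S_ge rk R hR k M hM
  have hfew : (#{U ∈ S R | ∀ k ≤ N, #(Fr rk R k U) ≤ F} : ℝ) * Real.sqrt M ≤ #(S R) := by
    have h1 : #{U ∈ S R | ∀ k ≤ N, #(Fr rk R k U) ≤ F} ≤ 2 ^ (M / 2) := by
      refine (fewfree rk R hR N hN F).trans ?_
      refine (Nat.pow_le_pow_left hQ _).trans ?_
      rw [← pow_mul]
      apply Nat.pow_le_pow_right (by norm_num)
      have : 2 * ((N + 1) * ((N + 1) * F)) ≤ M := by
        calc _ = M / (2 * (N + 1) ^ 2) * (2 * (N + 1) ^ 2) := by rw [hF]; ring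
          _ ≤ M := Nat.div_mul_le_self _ _
      omega
    have h2 : (#{U ∈ S R | ∀ k ≤ N, #(Fr rk R k U) ≤ F} : ℝ) ≤ 2 ^ (M / 2) := by
      exact_mod_cast h1
    have h3 : Real.sqrt M ≤ 2 ^ (M - M / 2) := by
      rw [Real.sqrt_le_left (by positivity), ← pow_mul]
      have h4 : (M : ℕ) ≤ 2 ^ ((M - M / 2) * 2) := by
        calc M ≤ 2 ^ M := Nat.lt_two_pow_self.le
          _ ≤ 2 ^ ((M - M / 2) * 2) := Nat.pow_le_pow_right (by norm_num) (by omega)
      exact_mod_cast h4
    calc _ ≤ (2 : ℝ) ^ (M / 2) * 2 ^ (M - M / 2) := by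
          apply mul_le_mul h2 h3 (Real.sqrt_nonneg _) (by positivity)
      _ = 2 ^ M := by rw [← pow_add]; congr 1; omega
      _ ≤ _ := hS
  have hmany : ∀ k ∈ Finset.range (N + 1),
      (#{U ∈ S R | F < #(Fr rk R k U) ∧ mu rk w U = 0} : ℝ) * Real.sqrt M ≤
        Real.sqrt 2 * (N + 1) * #(S R) := by
    intro k _
    have h1 := manyfree rk R w hR hw k F
    have h2 : Real.sqrt M ≤ Real.sqrt 2 * (N + 1) * Real.sqrt (F + 1) := by
      rw [Real.sqrt_le_left (by positivity)]
      rw [mul_pow, mul_pow, Real.sq_sqrt (by positivity), Real.sq_sqrt (by positivity)]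
      have h3 : M < (2 * (N + 1) ^ 2) * (F + 1) := by
        rw [hF]
        exact Nat.lt_mul_div_succ M (by positivity)
      have h4 : (M : ℝ) ≤ (2 * (N + 1) ^ 2) * (F + 1) := by exact_mod_cast h3.le
      linarith
    calc _ ≤ (#{U ∈ S R | F < #(Fr rk R k U) ∧ mu rk w U = 0} : ℝ) *
          (Real.sqrt 2 * (N + 1) * Real.sqrt (F + 1)) :=
          mul_le_mul_of_nonneg_left h2 (by positivity)
      _ = Real.sqrt 2 * (N + 1) *
          ((#{U ∈ S R | F < #(Fr rk R k U) ∧ mu rk w U = 0} : ℝ) * Real.sqrt (F + 1)) := by ring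
      _ ≤ _ := mul_le_mul_of_nonneg_left h1 (by positivity)
  have hunion : #{U ∈ S R | mu rk w U = 0} ≤ #{U ∈ S R | ∀ k ≤ N, #(Fr rk R k U) ≤ F} +
      ∑ k ∈ Finset.range (N + 1), #{U ∈ S R | F < #(Fr rk R k U) ∧ mu rk w U = 0} := by
    have hsub : {U ∈ S R | mu rk w U = 0} ⊆ {U ∈ S R | ∀ k ≤ N, #(Fr rk R k U) ≤ F} ∪
        (Finset.range (N + 1)).biUnion
          (fun k => {U ∈ S R | F < #(Fr rk R k U) ∧ mu rk w U = 0}) := by
      intro U hU
      rw [Finset.mem_filter] at hU
      rw [Finset.mem_union]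
      by_cases h : ∀ k ≤ N, #(Fr rk R k U) ≤ F
      · left
        exact Finset.mem_filter.2 ⟨hU.1, h⟩
      · right
        push Not at h
        obtain ⟨k, hk, hkF⟩ := h
        rw [Finset.mem_biUnion]
        exact ⟨k, Finset.mem_range.2 (by omega), Finset.mem_filter.2 ⟨hU.1, hkF, hU.2⟩⟩
    refine (Finset.card_le_card hsub).trans ((Finset.card_union_le _ _).trans ?_)
    exact Nat.add_le_add_left Finset.card_biUnion_le _
  have hunion' : (#{U ∈ S R | mu rk w U = 0} : ℝ) ≤ #{U ∈ S R | ∀ k ≤ N, #(Fr rk R k U) ≤ F} +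
      ∑ k ∈ Finset.range (N + 1),
        (#{U ∈ S R | F < #(Fr rk R k U) ∧ mu rk w U = 0} : ℝ) := by
    exact_mod_cast hunion
  have hsum : (∑ k ∈ Finset.range (N + 1),
        (#{U ∈ S R | F < #(Fr rk R k U) ∧ mu rk w U = 0} : ℝ)) * Real.sqrt M ≤
      (N + 1) * (Real.sqrt 2 * (N + 1) * #(S R)) := by
    rw [Finset.sum_mul]
    refine (Finset.sum_le_sum hmany).trans ?_
    rw [Finset.sum_const, Finset.card_range, nsmul_eq_mul]
    push_cast
    exact le_rfl
  have h2 : Real.sqrt 2 ≤ 2 := by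
    rw [Real.sqrt_le_left (by norm_num)]; norm_num
  calc (#{U ∈ S R | mu rk w U = 0} : ℝ) * Real.sqrt M
      ≤ (#{U ∈ S R | ∀ k ≤ N, #(Fr rk R k U) ≤ F} + ∑ k ∈ Finset.range (N + 1),
        (#{U ∈ S R | F < #(Fr rk R k U) ∧ mu rk w U = 0} : ℝ)) * Real.sqrt M :=
        mul_le_mul_of_nonneg_right hunion' (Real.sqrt_nonneg _)
    _ ≤ #(S R) + (N + 1) * (Real.sqrt 2 * (N + 1) * #(S R)) := by
        rw [add_mul]
        exact add_le_add hfew hsum
    _ ≤ 3 * (N + 1) ^ 2 * #(S R) := by
        have h3 : (0 : ℝ) ≤ #(S R) := by positivity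
        have h4 : (1 : ℝ) ≤ (N + 1) ^ 2 := by
          have : (0 : ℝ) ≤ N := by positivity
          nlinarith
        have h5 : (N + 1) * (Real.sqrt 2 * (N + 1) * #(S R)) ≤
            2 * ((N : ℝ) + 1) ^ 2 * #(S R) := by
          have h6 : 0 ≤ ((N : ℝ) + 1) ^ 2 * #(S R) := by positivity
          nlinarith
        nlinarith

end abs

end Pool.Agent.W912.KA
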