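import Pool.Agent.W912.KA.Abs

set_option autoImplicit false

/-! Almost all monotone graph properties are evasive: transfer to graphs. helper912. -/

namespace Pool.Agent.W912.KA

open Finset

/-- `P` is evasive, in the form of the frozen statement of MP_257582_lc. -/
def Ev (n : ℕ) (P : SimpleGraph (Fin n) → Prop) : Prop :=
  ∀ s : Finset (Sym2 (Fin n)) → SimpleGraph (Fin n) → Sym2 (Fin n),
    (∀ (Q : Finset (Sym2 (Fin n))) (G H : SimpleGraph (Fin n)),
        (∀ e ∈ Q, (e ∈ G.edgeSet ↔ e ∈ H.edgeSet)) → s Q G = s Q H) →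
    ∃ G H : SimpleGraph (Fin n),
      (∀ e ∈ (fun Q : Finset (Sym2 (Fin n)) => insert (s Q G) Q)^[n.choose 2 - 1]
            (∅ : Finset (Sym2 (Fin n))),
          (e ∈ G.edgeSet ↔ e ∈ H.edgeSet)) ∧ P G ∧ ¬ P H

variable {n : ℕ}

/-- the edges as a finset -/
noncomputable def ed (G : SimpleGraph (Fin n)) : Finset (Sym2 (Fin n)) :=
  G.edgeSet.toFinite.toFinset

theorem mem_ed (G : SimpleGraph (Fin n)) (e : Sym2 (Fin n)) : e ∈ ed G ↔ e ∈ G.edgeSet := by
  simp [ed]

theorem ed_inj {G H : SimpleGraph (Fin n)} (h : ed G = ed H) : G = H := by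
  apply SimpleGraph.edgeSet_injective
  ext e
  rw [← mem_ed, ← mem_ed, h]

theorem ed_lt {G H : SimpleGraph (Fin n)} (h : G < H) : #(ed G) < #(ed H) := by
  apply Finset.card_lt_card
  rw [Finset.ssubset_iff_subset_ne]
  constructor
  · intro e he
    rw [mem_ed] at he ⊢
    exact SimpleGraph.edgeSet_mono h.le he
  · intro h1
    exact h.ne (ed_inj h1)

/-- the edges of the complete graph -/
noncomputable def top (n : ℕ) : Finset (Sym2 (Fin n)) := ed (⊤ : SimpleGraph (Fin n))

theorem card_top (n : ℕ) : #(top n) = n.choose 2 := by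
  classical
  have h := SimpleGraph.card_edgeFinset_top_eq_card_choose_two (V := Fin n)
  rw [Fintype.card_fin] at h
  rw [← h]
  congr 1
  ext e
  rw [top, mem_ed, SimpleGraph.mem_edgeFinset]

theorem ed_sub (G : SimpleGraph (Fin n)) : ed G ⊆ top n := by
  intro e he
  rw [top, mem_ed]
  rw [mem_ed] at he
  exact SimpleGraph.edgeSet_mono le_top he

/-- the graph with a given edge set -/
def gr (A : Finset (Sym2 (Fin n))) : SimpleGraph (Fin n) := SimpleGraph.fromEdgeSet (A : Set _)

theorem ed_gr {A : Finset (Sym2 (Fin n))} (hA : A ⊆ top n) : ed (gr A) = A := by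
  ext e
  rw [mem_ed, gr, SimpleGraph.edgeSet_fromEdgeSet]
  constructor
  · rintro ⟨h, -⟩
    exact h
  · intro h
    refine ⟨h, ?_⟩
    have := hA h
    rw [top, mem_ed] at this
    exact SimpleGraph.not_isDiag_of_mem_edgeSet _ this

/-- the unqueried edge only depends on the set of queries -/
theorem chi_zero (hn : 2 ≤ n) (P : SimpleGraph (Fin n) → Prop) (hP : ¬ Ev n P)
    [Fintype (SimpleGraph (Fin n))] [DecidablePred P] :
    ∑ G : SimpleGraph (Fin n) with P G, (-1 : ℤ) ^ #(ed G) = 0 := by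
  classical
  unfold Ev at hP
  push Not at hP
  obtain ⟨s, hs, hGH⟩ := hP
  let it : ℕ → SimpleGraph (Fin n) → Finset (Sym2 (Fin n)) := fun k G =>
    (fun Q : Finset (Sym2 (Fin n)) => insert (s Q G) Q)^[k] (∅ : Finset (Sym2 (Fin n)))
  have it_succ : ∀ k G, it (k + 1) G = insert (s (it k G) G) (it k G) := by
    intro k G
    simp only [it]
    rw [Function.iterate_succ_apply']
  have it_card : ∀ k G, #(it k G) ≤ k := by
    intro k G
    induction k with
    | zero => simp [it]
    | succ k ih => rw [it_succ]; exact (Finset.card_insert_le _ _).trans (by omega)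
  have it_eq : ∀ k (G H : SimpleGraph (Fin n)),
      (∀ e ∈ it k G, (e ∈ G.edgeSet ↔ e ∈ H.edgeSet)) → it k H = it k G := by
    intro k G H
    induction k with
    | zero => intro _; simp [it]
    | succ k ih =>
      intro h
      have h1 : it k H = it k G := ih (fun e he => h e (by rw [it_succ]; exact mem_insert_of_mem he))
      rw [it_succ, it_succ, h1]
      have h2 : s (it k G) H = s (it k G) G := by
        apply hs
        intro e he
        exact (h e (by rw [it_succ]; exact mem_insert_of_mem he)).symm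
      rw [h2]
  set m := n.choose 2 - 1 with hm
  have hpos : 0 < n.choose 2 := Nat.choose_pos hn
  have hex : ∀ Q : Finset (Sym2 (Fin n)), #Q ≤ m → ∃ e ∈ top n, e ∉ Q := by
    intro Q hQ
    by_contra hcon
    push Not at hcon
    have := Finset.card_le_card (s := top n) (t := Q) hcon
    rw [card_top] at this
    omega
  let ch : Finset (Sym2 (Fin n)) → Sym2 (Fin n) := fun Q =>
    if h : ∃ e ∈ top n, e ∉ Q then h.choose else s Q ⊥
  have hch : ∀ Q : Finset (Sym2 (Fin n)), #Q ≤ m → ch Q ∈ top n ∧ ch Q ∉ Q := by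
    intro Q hQ
    have h := hex Q hQ
    simp only [ch, dif_pos h]
    exact h.choose_spec
  let fl : SimpleGraph (Fin n) → SimpleGraph (Fin n) := fun G =>
    gr (symmDiff (ed G) {ch (it m G)})
  have hcG : ∀ G, ch (it m G) ∈ top n ∧ ch (it m G) ∉ it m G := fun G => hch _ (it_card m G)
  have edfl : ∀ G, ed (fl G) = symmDiff (ed G) {ch (it m G)} := by
    intro G
    apply ed_gr
    intro e he
    rw [Finset.mem_symmDiff] at he
    rcases he with he | he
    · exact ed_sub G he.1
    · rw [Finset.mem_singleton.1 he.1]; exact (hcG G).1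
  have agree : ∀ G, ∀ e ∈ it m G, (e ∈ G.edgeSet ↔ e ∈ (fl G).edgeSet) := by
    intro G e he
    rw [← mem_ed, ← mem_ed, edfl, Finset.mem_symmDiff, Finset.mem_singleton]
    have hne : e ≠ ch (it m G) := fun h => (hcG G).2 (h ▸ he)
    tauto
  have itfl : ∀ G, it m (fl G) = it m G := fun G => it_eq m G (fl G) (agree G)
  have flfl : ∀ G, fl (fl G) = G := by
    intro G
    apply ed_inj
    rw [edfl, edfl, itfl]
    exact symmDiff_symmDiff_cancel_right _ _
  have Pfl : ∀ G, P G ↔ P (fl G) := by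
    intro G
    constructor
    · exact hGH G (fl G) (agree G)
    · intro h
      have := hGH (fl G) (fl (fl G)) (agree (fl G)) h
      rwa [flfl] at this
  have parity : ∀ G, (-1 : ℤ) ^ #(ed G) + (-1 : ℤ) ^ #(ed (fl G)) = 0 := by
    intro G
    by_cases h : ch (it m G) ∈ ed G
    · have h1 : ed (fl G) = (ed G).erase (ch (it m G)) := by
        rw [edfl]
        ext e
        simp only [Finset.mem_symmDiff, Finset.mem_singleton, Finset.mem_erase]
        constructor
        · rintro (h1 | h1)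
          · exact ⟨h1.2, h1.1⟩
          · exact absurd (h1.1 ▸ h) h1.2
        · rintro ⟨h1, h2⟩
          exact Or.inl ⟨h2, h1⟩
      have h2 := Finset.card_erase_add_one h
      rw [h1, ← h2, pow_succ]
      ring
    · have h1 : ed (fl G) = insert (ch (it m G)) (ed G) := by
        rw [edfl]
        ext e
        simp only [Finset.mem_symmDiff, Finset.mem_singleton, Finset.mem_insert]
        constructor
        · rintro (h1 | h1)
          · exact Or.inr h1.1
          · exact Or.inl h1.1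
        · rintro (h1 | h1)
          · exact Or.inr ⟨h1, h1 ▸ h⟩
          · exact Or.inl ⟨h1, fun h2 => h (h2 ▸ h1)⟩
      rw [h1, Finset.card_insert_of_notMem h, pow_succ]
      ring
  apply Finset.sum_involution (fun G _ => fl G)
  · intro G _
    exact parity G
  · intro G _ _ h
    have := parity G
    rw [h] at this
    have h3 : ((-1 : ℤ) ^ #(ed G)) ≠ 0 := pow_ne_zero _ (by norm_num)
    omega
  · intro G hG
    rw [Finset.mem_filter] at hG ⊢
    exact ⟨Finset.mem_univ _, (Pfl G).1 hG.2⟩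
  · intro G _
    exact flfl G

/-- isomorphism -/
def iso (n : ℕ) : Setoid (SimpleGraph (Fin n)) where
  r G H := ∃ σ : Fin n ≃ Fin n, G.map σ.toEmbedding = H
  iseqv := by
    refine ⟨fun G => ⟨Equiv.refl _, ?_⟩, ?_, ?_⟩
    · ext a b
      simp
    · rintro G H ⟨σ, rfl⟩
      refine ⟨σ.symm, ?_⟩
      ext a b
      simp [SimpleGraph.map_adj]
    · rintro G H K ⟨σ, rfl⟩ ⟨τ, rfl⟩
      refine ⟨σ.trans τ, ?_⟩
      ext a b
      simp only [SimpleGraph.map_adj]
      constructor
      · rintro ⟨u, v, h, rfl, rfl⟩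
        exact ⟨σ u, σ v, ⟨u, v, h, rfl, rfl⟩, rfl, rfl⟩
      · rintro ⟨_, _, ⟨u, v, h, rfl, rfl⟩, rfl, rfl⟩
        exact ⟨u, v, h, rfl, rfl⟩

open Classical in
theorem card_ed_map (σ : Fin n ≃ Fin n) (G : SimpleGraph (Fin n)) :
    #(ed (G.map σ.toEmbedding)) = #(ed G) := by
  have h : ed (G.map σ.toEmbedding) = (ed G).map σ.toEmbedding.sym2Map := by
    ext e
    rw [mem_ed, Finset.mem_map, SimpleGraph.edgeSet_map]
    constructor
    · rintro ⟨f, hf, rfl⟩
      exact ⟨f, (mem_ed G f).2 hf, rfl⟩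
    · rintro ⟨f, hf, rfl⟩
      exact ⟨f, (mem_ed G f).1 hf, rfl⟩
  rw [h, Finset.card_map]

/-- isomorphism classes -/
abbrev QQ (n : ℕ) : Type := Quotient (iso n)

/-- the class of a graph -/
def cls (G : SimpleGraph (Fin n)) : QQ n := Quotient.mk (iso n) G

theorem cls_eq {G H : SimpleGraph (Fin n)} :
    cls G = cls H ↔ ∃ σ : Fin n ≃ Fin n, G.map σ.toEmbedding = H :=
  ⟨fun h => Quotient.exact h, fun h => Quotient.sound h⟩

/-- number of edges -/
noncomputable def rkQ (a : QQ n) : ℕ := #(ed (Quotient.out a))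

theorem cls_out (a : QQ n) : cls (Quotient.out a) = a := Quotient.out_eq a

theorem rk_cls (G : SimpleGraph (Fin n)) : rkQ (cls G) = #(ed G) := by
  unfold rkQ
  have h := cls_out (cls G)
  obtain ⟨σ, hσ⟩ := cls_eq.1 h
  conv_rhs => rw [← hσ]
  rw [card_ed_map]

/-- strict containment between isomorphism classes -/
def RQ (a b : QQ n) : Prop := ∃ G H : SimpleGraph (Fin n), cls G = a ∧ cls H = b ∧ G < H

theorem RQ_rk (a b : QQ n) (h : RQ a b) : rkQ a < rkQ b := by
  obtain ⟨G, H, rfl, rfl, h⟩ := h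
  rw [rk_cls, rk_cls]
  exact ed_lt h

open Classical in
/-- size of a class -/
noncomputable def wQ (a : QQ n) : ℕ := #{G : SimpleGraph (Fin n) | cls G = a}

theorem wQ_pos (a : QQ n) : 0 < wQ a := by
  classical
  unfold wQ
  apply Finset.card_pos.2
  exact ⟨Quotient.out a, Finset.mem_filter.2 ⟨Finset.mem_univ _, cls_out a⟩⟩

theorem wQ_le (a : QQ n) : wQ a ≤ n.factorial := by
  classical
  unfold wQ
  have h : (univ : Finset (SimpleGraph (Fin n))).filter (fun G => cls G = a) ⊆
      (univ : Finset (Fin n ≃ Fin n)).image (fun σ => (Quotient.out a).map σ.toEmbedding) := by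
    intro G hG
    rw [Finset.mem_filter] at hG
    rw [Finset.mem_image]
    have h1 : cls (Quotient.out a) = cls G := by rw [cls_out, hG.2]
    obtain ⟨σ, hσ⟩ := cls_eq.1 h1
    exact ⟨σ, Finset.mem_univ _, hσ⟩
  refine (Finset.card_le_card h).trans (Finset.card_image_le.trans ?_)
  rw [Finset.card_univ, Fintype.card_equiv (Equiv.refl _), Fintype.card_fin]

theorem card_graph_le : Fintype.card (SimpleGraph (Fin n)) ≤ 2 ^ n.choose 2 := by
  classical
  rw [← card_top, ← Finset.card_powerset, ← Finset.card_univ]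
  apply Finset.card_le_card_of_injOn ed
  · intro G _
    exact Finset.mem_coe.2 (Finset.mem_powerset.2 (ed_sub G))
  · intro G _ H _ h
    exact ed_inj h

theorem card_QQ [Fintype (QQ n)] : Fintype.card (QQ n) + 1 ≤ 2 ^ (n.choose 2 + 1) := by
  classical
  have h1 : Fintype.card (QQ n) ≤ Fintype.card (SimpleGraph (Fin n)) :=
    Fintype.card_le_of_injective Quotient.out (fun a b h => by
      rw [← cls_out a, ← cls_out b, h])
  have h2 := card_graph_le (n := n)
  have h3 : 1 ≤ 2 ^ n.choose 2 := Nat.one_le_two_pow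
  rw [pow_succ]
  omega

theorem choose_le_graphs (k : ℕ) [Fintype (SimpleGraph (Fin n))] :
    (n.choose 2).choose k ≤ #{G : SimpleGraph (Fin n) | #(ed G) = k} := by
  classical
  rw [← card_top, ← Finset.card_powersetCard]
  apply Finset.card_le_card_of_injOn gr
  · intro A hA
    rw [Finset.mem_coe, Finset.mem_powersetCard] at hA
    rw [Finset.mem_coe, Finset.mem_filter]
    refine ⟨Finset.mem_univ _, ?_⟩
    rw [ed_gr hA.1, hA.2]
  · intro A hA B hB h
    rw [Finset.mem_coe, Finset.mem_powersetCard] at hA hB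
    rw [← ed_gr hA.1, ← ed_gr hB.1, h]

theorem many_classes (k : ℕ) [Fintype (QQ n)] :
    (n.choose 2).choose k ≤ n.factorial * #{a : QQ n | rkQ a = k} := by
  classical
  refine (choose_le_graphs k).trans ?_
  have h := Finset.card_eq_sum_card_fiberwise (f := cls (n := n))
    (s := {G : SimpleGraph (Fin n) | #(ed G) = k}) (t := {a : QQ n | rkQ a = k}) (by
      intro G hG
      rw [Finset.mem_coe, Finset.mem_filter] at hG ⊢
      exact ⟨Finset.mem_univ _, by rw [rk_cls, hG.2]⟩)
  rw [h, mul_comm, ← smul_eq_mul, ← Finset.sum_const]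
  apply Finset.sum_le_sum
  intro a _
  refine le_trans (Finset.card_le_card ?_) (wQ_le a)
  intro G hG
  rw [Finset.mem_filter] at hG ⊢
  exact ⟨Finset.mem_univ _, hG.2⟩

/-- monotone isomorphism-invariant properties -/
def MI (n : ℕ) : Set (SimpleGraph (Fin n) → Prop) :=
  {P | (∀ G H : SimpleGraph (Fin n), G ≤ H → P G → P H) ∧
      ∀ (σ : Fin n ≃ Fin n) (G : SimpleGraph (Fin n)), P G → P (G.map σ.toEmbedding)}

theorem inv_cls {P : SimpleGraph (Fin n) → Prop} (hP : P ∈ MI n) {G H : SimpleGraph (Fin n)}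
    (h : cls G = cls H) : P G ↔ P H := by
  constructor
  · intro hG
    obtain ⟨σ, rfl⟩ := cls_eq.1 h
    exact hP.2 σ G hG
  · intro hH
    obtain ⟨σ, rfl⟩ := cls_eq.1 h.symm
    exact hP.2 σ H hH

open Classical in
/-- the closed set of classes of a property -/
noncomputable def UU (P : SimpleGraph (Fin n) → Prop) : Finset (QQ n) :=
  univ.filter (fun a => P (Quotient.out a))

theorem mem_UU {P : SimpleGraph (Fin n) → Prop} (hP : P ∈ MI n) (G : SimpleGraph (Fin n)) :
    cls G ∈ UU P ↔ P G := by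
  classical
  unfold UU
  rw [Finset.mem_filter]
  simp only [Finset.mem_univ, true_and]
  exact inv_cls hP (cls_out _)

theorem UU_cl {P : SimpleGraph (Fin n) → Prop} (hP : P ∈ MI n) : Cl RQ (UU P) := by
  rintro a b ⟨G, H, rfl, rfl, h⟩ ha
  rw [mem_UU hP] at ha ⊢
  exact hP.1 G H h.le ha

theorem UU_inj {P P' : SimpleGraph (Fin n) → Prop} (hP : P ∈ MI n) (hP' : P' ∈ MI n)
    (h : UU P = UU P') : P = P' := by
  funext G
  apply propext
  rw [← mem_UU hP, ← mem_UU hP', h]

theorem UU_mu (hn : 2 ≤ n) {P : SimpleGraph (Fin n) → Prop} (hP : P ∈ MI n) (h : ¬ Ev n P) :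
    mu rkQ wQ (UU P) = 0 := by
  classical
  have h0 := chi_zero hn P h
  have h1 : ∑ G : SimpleGraph (Fin n) with P G, (-1 : ℤ) ^ #(ed G) =
      ∑ a ∈ UU P, ∑ G : SimpleGraph (Fin n) with cls G = a, (-1 : ℤ) ^ #(ed G) := by
    rw [← Finset.sum_fiberwise_of_maps_to (s := {G : SimpleGraph (Fin n) | P G}) (t := UU P)
      (g := cls (n := n))]
    · apply Finset.sum_congr rfl
      intro a ha
      apply Finset.sum_congr _ (fun _ _ => rfl)
      ext G
      simp only [Finset.mem_filter, Finset.mem_univ, true_and]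
      constructor
      · exact fun h => h.2
      · rintro rfl
        exact ⟨(mem_UU hP G).1 ha, rfl⟩
    · intro G hG
      rw [Finset.mem_filter] at hG
      exact (mem_UU hP G).2 hG.2
  rw [h1] at h0
  rw [← h0]
  unfold mu
  apply Finset.sum_congr rfl
  intro a _
  rw [Finset.sum_congr rfl (g := fun _ => (-1 : ℤ) ^ rkQ a)]
  · rw [Finset.sum_const, nsmul_eq_mul, mul_comm]
    rfl
  · intro G hG
    rw [Finset.mem_filter] at hG
    rw [← hG.2, rk_cls]

/-- the counting inequality for graph properties -/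
theorem main_sq (hn : 2 ≤ n) :
    {P | P ∈ MI n ∧ ¬ Ev n P}.ncard ^ 2 * 2 ^ n.choose 2 ≤
      9 * (n.choose 2 + 1) ^ 5 * n.factorial * (MI n).ncard ^ 2 := by
  classical
  set N := n.choose 2 with hN
  set M := #{a : QQ n | rkQ a = N / 2} with hM
  have hMle : N.choose (N / 2) ≤ n.factorial * M := many_classes (N / 2)
  have hMpos : 0 < M := by
    have h1 : 0 < N.choose (N / 2) := Nat.choose_pos (Nat.div_le_self _ _)
    by_contra h
    have : M = 0 := by omega
    rw [this, mul_zero] at hMle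
    omega
  have hrk : ∀ a : QQ n, rkQ a ≤ N := by
    intro a
    unfold rkQ
    rw [hN, ← card_top]
    exact Finset.card_le_card (ed_sub _)
  have hc := count rkQ RQ wQ RQ_rk wQ_pos N hrk card_QQ (N / 2) M hMpos le_rfl
  -- compare
  have hbad : {P | P ∈ MI n ∧ ¬ Ev n P}.ncard ≤ #{U ∈ S (RQ (n := n)) | mu rkQ wQ U = 0} := by
    rw [← Set.ncard_coe_finset]
    apply Set.ncard_le_ncard_of_injOn UU
    · rintro P ⟨hP, hE⟩
      rw [Finset.mem_coe, Finset.mem_filter, mem_S]
      exact ⟨UU_cl hP, UU_mu hn hP hE⟩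
    · rintro P hP P' hP' h
      exact UU_inj hP.1 hP'.1 h
  have hall : #(S (RQ (n := n))) ≤ (MI n).ncard := by
    rw [← Set.ncard_coe_finset]
    apply Set.ncard_le_ncard_of_injOn (fun U G => cls G ∈ U)
    · intro U hU
      rw [Finset.mem_coe, mem_S] at hU
      constructor
      · intro G H hGH hG
        rcases eq_or_lt_of_le hGH with rfl | hlt
        · exact hG
        · exact hU _ _ ⟨G, H, rfl, rfl, hlt⟩ hG
      · intro σ G hG
        have : cls (G.map σ.toEmbedding) = cls G := (cls_eq.2 ⟨σ, rfl⟩).symm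
        rw [this]
        exact hG
    · intro U _ U' _ h
      ext a
      have := congrFun h (Quotient.out a)
      simp only [cls_out] at this
      exact iff_of_eq this
  set b := #{U ∈ S (RQ (n := n)) | mu rkQ wQ U = 0} with hb
  set s := #(S (RQ (n := n))) with hs
  have hsq : b ^ 2 * M ≤ 9 * (N + 1) ^ 4 * s ^ 2 := by
    have h1 : ((b : ℝ) * Real.sqrt M) ^ 2 ≤ (3 * ((N : ℝ) + 1) ^ 2 * s) ^ 2 :=
      pow_le_pow_left₀ (by positivity) hc 2
    rw [mul_pow, Real.sq_sqrt (by positivity)] at h1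
    have h2 : ((b ^ 2 * M : ℕ) : ℝ) ≤ ((9 * (N + 1) ^ 4 * s ^ 2 : ℕ) : ℝ) := by
      push_cast
      calc _ ≤ _ := h1
        _ = _ := by ring
    exact_mod_cast h2
  have hpow : 2 ^ N ≤ (N + 1) * (n.factorial * M) := by
    calc 2 ^ N = ∑ i ∈ Finset.range (N + 1), N.choose i := (Nat.sum_range_choose N).symm
      _ ≤ ∑ _i ∈ Finset.range (N + 1), N.choose (N / 2) :=
          Finset.sum_le_sum (fun i _ => Nat.choose_le_middle i N)
      _ = (N + 1) * N.choose (N / 2) := by rw [Finset.sum_const, Finset.card_range, smul_eq_mul]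
      _ ≤ _ := Nat.mul_le_mul_left _ hMle
  calc {P | P ∈ MI n ∧ ¬ Ev n P}.ncard ^ 2 * 2 ^ N
      ≤ b ^ 2 * ((N + 1) * (n.factorial * M)) :=
        Nat.mul_le_mul (Nat.pow_le_pow_left hbad 2) hpow
    _ = (N + 1) * n.factorial * (b ^ 2 * M) := by ring
    _ ≤ (N + 1) * n.factorial * (9 * (N + 1) ^ 4 * s ^ 2) := Nat.mul_le_mul_left _ hsq
    _ = 9 * (N + 1) ^ 5 * n.factorial * s ^ 2 := by ring
    _ ≤ _ := Nat.mul_le_mul_left _ (Nat.pow_le_pow_left hall 2)

end Pool.Agent.W912.KA
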